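import Mathlib

set_option autoImplicit false

namespace Pool.Agent.Results.MP_2e8808_al.JacobsonRadical

/-! ### The first Grigorchuk group, acting on finite binary words

The letter `0` is `false` and the letter `1` is `true`; vertices of the rooted binary tree are
the finite words `List Bool`. -/

/-- The action of `a`: it changes the first letter. -/
def actA : List Bool → List Bool
  | [] => []
  | x :: w => (!x) :: w

mutual
/-- The action of `b`: `b(0w) = 0 a(w)`, `b(1w) = 1 c(w)`. -/
def actB : List Bool → List Bool
  | [] => []
  | false :: w => false :: actA w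
  | true :: w => true :: actC w
/-- The action of `c`: `c(0w) = 0 a(w)`, `c(1w) = 1 d(w)`. -/
def actC : List Bool → List Bool
  | [] => []
  | false :: w => false :: actA w
  | true :: w => true :: actD w
/-- The action of `d`: `d(0w) = 0w`, `d(1w) = 1 b(w)`. -/
def actD : List Bool → List Bool
  | [] => []
  | false :: w => false :: w
  | true :: w => true :: actB w
end

theorem actA_invol : Function.Involutive actA := by
  intro w
  cases w with
  | nil => rfl
  | cons x w => simp [actA]

theorem actBCD_invol (w : List Bool) :
    actB (actB w) = w ∧ actC (actC w) = w ∧ actD (actD w) = w := by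
  induction w with
  | nil => simp [actB, actC, actD]
  | cons x w ih =>
    obtain ⟨h1, h2, h3⟩ := ih
    cases x <;> simp [actB, actC, actD, h1, h2, h3, actA_invol w]

theorem actB_invol : Function.Involutive actB := fun w => (actBCD_invol w).1
theorem actC_invol : Function.Involutive actC := fun w => (actBCD_invol w).2.1
theorem actD_invol : Function.Involutive actD := fun w => (actBCD_invol w).2.2

/-- The generator `a` as a permutation of the set of vertices of the tree. -/
def genA : Equiv.Perm (List Bool) := actA_invol.toPerm
/-- The generator `b` as a permutation of the set of vertices of the tree. -/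
def genB : Equiv.Perm (List Bool) := actB_invol.toPerm
/-- The generator `c` as a permutation of the set of vertices of the tree. -/
def genC : Equiv.Perm (List Bool) := actC_invol.toPerm
/-- The generator `d` as a permutation of the set of vertices of the tree. -/
def genD : Equiv.Perm (List Bool) := actD_invol.toPerm

/-- The first Grigorchuk group: the group generated by `a, b, c, d`. -/
def Grigorchuk : Subgroup (Equiv.Perm (List Bool)) :=
  Subgroup.closure {genA, genB, genC, genD}

/-- The augmentation map `F₂[G] → F₂`, `∑ λ_g g ↦ ∑ λ_g`. -/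
noncomputable def augmentation :
    MonoidAlgebra (ZMod 2) Grigorchuk →ₐ[ZMod 2] ZMod 2 :=
  MonoidAlgebra.lift (ZMod 2) (ZMod 2) Grigorchuk 1

/-- The augmentation (fundamental) ideal `w(F₂[G])`, the kernel of the augmentation map. -/
noncomputable def augmentationIdeal : Ideal (MonoidAlgebra (ZMod 2) Grigorchuk) :=
  RingHom.ker augmentation

/-- Sanity check: `x` lies in `w(F₂[G])` iff the sum of its coefficients is `0`. -/
theorem mem_augmentationIdeal (x : MonoidAlgebra (ZMod 2) Grigorchuk) :
    x ∈ augmentationIdeal ↔ x.coeff.sum (fun _ r => r) = 0 := by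
  rw [augmentationIdeal, RingHom.mem_ker, augmentation, MonoidAlgebra.lift_apply]
  simp

/-! ### Operators on functions -/

/-- Functions on the set of vertices with values in `F₂`. -/
abbrev M : Type := List Bool → ZMod 2

/-- The operator `1 + a`. -/
def oA : M →ₗ[ZMod 2] M := LinearMap.id + LinearMap.funLeft (ZMod 2) (ZMod 2) actA
/-- The operator `1 + b`. -/
def oB : M →ₗ[ZMod 2] M := LinearMap.id + LinearMap.funLeft (ZMod 2) (ZMod 2) actB
/-- The operator `1 + c`. -/
def oC : M →ₗ[ZMod 2] M := LinearMap.id + LinearMap.funLeft (ZMod 2) (ZMod 2) actC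
/-- The operator `1 + d`. -/
def oD : M →ₗ[ZMod 2] M := LinearMap.id + LinearMap.funLeft (ZMod 2) (ZMod 2) actD

theorem oA_apply (f : M) (w : List Bool) : oA f w = f w + f (actA w) := by
  simp [oA, LinearMap.funLeft_apply]
theorem oB_apply (f : M) (w : List Bool) : oB f w = f w + f (actB w) := by
  simp [oB, LinearMap.funLeft_apply]
theorem oC_apply (f : M) (w : List Bool) : oC f w = f w + f (actC w) := by
  simp [oC, LinearMap.funLeft_apply]
theorem oD_apply (f : M) (w : List Bool) : oD f w = f w + f (actD w) := by
  simp [oD, LinearMap.funLeft_apply]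

/-- The function with value `0` at the root and given restrictions to the two subtrees. -/
def pr (g h : M) : M
  | [] => 0
  | false :: w => g w
  | true :: w => h w

/-- Restriction to the subtree below `x`. -/
def res (x : Bool) (f : M) : M := fun w => f (x :: w)

theorem two_eq_zero' : (2 : ZMod 2) = 0 := by decide

theorem add_self' (x : ZMod 2) : x + x = 0 := CharTwo.add_self_eq_zero x

theorem addM_self (f : M) : f + f = 0 := by
  funext w
  simp [add_self']

theorem oA_eq (f : M) : oA f = pr (res false f + res true f) (res false f + res true f) := by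
  funext w
  rw [oA_apply]
  match w with
  | [] => simp [pr, actA, add_self']
  | false :: w => simp [pr, actA, res]
  | true :: w => simp [pr, actA, res, add_comm]

theorem oB_eq (f : M) : oB f = pr (oA (res false f)) (oC (res true f)) := by
  funext w
  rw [oB_apply]
  match w with
  | [] => simp [pr, actB, add_self']
  | false :: w => simp [pr, actB, res, oA_apply]
  | true :: w => simp [pr, actB, res, oC_apply]

theorem oC_eq (f : M) : oC f = pr (oA (res false f)) (oD (res true f)) := by
  funext w
  rw [oC_apply]
  match w with
  | [] => simp [pr, actC, add_self']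
  | false :: w => simp [pr, actC, res, oA_apply]
  | true :: w => simp [pr, actC, res, oD_apply]

theorem oD_eq (f : M) : oD f = pr 0 (oB (res true f)) := by
  funext w
  rw [oD_apply]
  match w with
  | [] => simp [pr, actD, add_self']
  | false :: w => simp [pr, actD, add_self']
  | true :: w => simp [pr, actD, res, oB_apply]

@[simp] theorem res_pr_false (g h : M) : res false (pr g h) = g := rfl
@[simp] theorem res_pr_true (g h : M) : res true (pr g h) = h := rfl

theorem pr_add (g h g' h' : M) : pr g h + pr g' h' = pr (g + g') (h + h') := by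
  funext w
  match w with
  | [] => simp [pr]
  | false :: w => simp [pr]
  | true :: w => simp [pr]

theorem pr_zero : pr 0 0 = 0 := by
  funext w
  match w with
  | [] => rfl
  | false :: w => rfl
  | true :: w => rfl

theorem A_pr (g h : M) : oA (pr g h) = pr (g + h) (g + h) := by rw [oA_eq]; rfl
theorem B_pr (g h : M) : oB (pr g h) = pr (oA g) (oC h) := by rw [oB_eq]; rfl
theorem C_pr (g h : M) : oC (pr g h) = pr (oA g) (oD h) := by rw [oC_eq]; rfl
theorem D_pr (g h : M) : oD (pr g h) = pr 0 (oB h) := by rw [oD_eq]; rfl

/-! ### Relations between the operators -/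

theorem BCD_comp (w : List Bool) :
    actB (actC w) = actD w ∧ actC (actD w) = actB w ∧ actD (actB w) = actC w := by
  induction w with
  | nil => simp [actB, actC, actD]
  | cons x w ih =>
    obtain ⟨h1, h2, h3⟩ := ih
    cases x <;> simp [actB, actC, actD, h1, h2, h3, actA_invol w]

theorem CBD_comp (w : List Bool) :
    actC (actB w) = actD w ∧ actD (actC w) = actB w ∧ actB (actD w) = actC w := by
  induction w with
  | nil => simp [actB, actC, actD]
  | cons x w ih =>
    obtain ⟨h1, h2, h3⟩ := ih
    cases x <;> simp [actB, actC, actD, h1, h2, h3, actA_invol w]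

theorem sum_BCD (w : List Bool) : ∀ f : M, f w + f (actB w) + f (actC w) + f (actD w) = 0 := by
  induction w with
  | nil =>
    intro f
    simp only [actB, actC, actD]
    generalize f [] = x
    revert x; decide
  | cons x w ih =>
    intro f
    cases x
    · simp only [actB, actC, actD]
      generalize f (false :: w) = x
      generalize f (false :: actA w) = y
      revert x y; decide
    · have h := ih (fun v => f (true :: v))
      simp only [actB, actC, actD]
      linear_combination h

theorem A_A (f : M) : oA (oA f) = 0 := by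
  funext w
  simp only [oA_apply, actA_invol w, Pi.zero_apply]
  generalize f w = x
  generalize f (actA w) = y
  revert x y; decide

theorem B_B (f : M) : oB (oB f) = 0 := by
  funext w
  simp only [oB_apply, actB_invol w, Pi.zero_apply]
  generalize f w = x
  generalize f (actB w) = y
  revert x y; decide

theorem C_C (f : M) : oC (oC f) = 0 := by
  funext w
  simp only [oC_apply, actC_invol w, Pi.zero_apply]
  generalize f w = x
  generalize f (actC w) = y
  revert x y; decide

theorem D_D (f : M) : oD (oD f) = 0 := by
  funext w
  simp only [oD_apply, actD_invol w, Pi.zero_apply]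
  generalize f w = x
  generalize f (actD w) = y
  revert x y; decide

theorem BCD_sum (f : M) : oB f + oC f + oD f = 0 := by
  funext w
  have h := sum_BCD w f
  simp only [oB_apply, oC_apply, oD_apply, Pi.add_apply, Pi.zero_apply]
  have h2 := add_self' (f w)
  linear_combination h + h2

theorem B_C (f : M) : oB (oC f) = 0 := by
  funext w
  have h := sum_BCD w f
  simp only [oB_apply, oC_apply, (CBD_comp w).1, Pi.zero_apply]
  linear_combination h

theorem C_B (f : M) : oC (oB f) = 0 := by
  funext w
  have h := sum_BCD w f
  simp only [oB_apply, oC_apply, (BCD_comp w).1, Pi.zero_apply]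
  linear_combination h

theorem C_D (f : M) : oC (oD f) = 0 := by
  funext w
  have h := sum_BCD w f
  simp only [oC_apply, oD_apply, (CBD_comp w).2.1, Pi.zero_apply]
  linear_combination h

theorem D_C (f : M) : oD (oC f) = 0 := by
  funext w
  have h := sum_BCD w f
  simp only [oC_apply, oD_apply, (BCD_comp w).2.1, Pi.zero_apply]
  linear_combination h

theorem D_B (f : M) : oD (oB f) = 0 := by
  funext w
  have h := sum_BCD w f
  simp only [oB_apply, oD_apply, (CBD_comp w).2.2, Pi.zero_apply]
  linear_combination h

theorem B_D (f : M) : oB (oD f) = 0 := by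
  funext w
  have h := sum_BCD w f
  simp only [oB_apply, oD_apply, (BCD_comp w).2.2, Pi.zero_apply]
  linear_combination h

theorem D_A_D (f : M) : oD (oA (oD f)) = 0 := by
  rw [oD_eq f, A_pr, D_pr, zero_add, B_B, pr_zero]

/-- `d = b + c` on the augmentation level: `(1 + d) f = (1 + b) f + (1 + c) f`. -/
theorem D_eq_add (f : M) : oD f = oB f + oC f := by
  have h := BCD_sum f
  have h2 := addM_self (oD f)
  have : oD f = (oB f + oC f + oD f) + oD f + (oB f + oC f + oD f) := by
    rw [h]; simp
  calc oD f = oD f + 0 := by simp
    _ = oD f + (oB f + oC f + oD f) := by rw [h]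
    _ = (oD f + oD f) + (oB f + oC f) := by abel
    _ = oB f + oC f := by rw [h2, zero_add]

/-! ### The element `u` and the three reduction steps -/

/-- The operator of `u = 1 + c + ac + aca + dad`, written in terms of `1+a, 1+c, 1+d`. -/
def opU (f : M) : M :=
  f + oC f + oC (oA f) + oA (oC (oA f)) + oA (oD f) + oD (oA f)

def opS (g : M) : M :=
  g + oA g + oD g + oA (oC g) + oB (oA (oC g)) + oA (oD (oA (oC g)))
    + oB (oA (oD (oA (oC g))))

def opT (h : M) : M :=
  h + oA h + oB (oA h) + oC (oA (oC (oA h))) + oC (oA (oD (oA (oB (oA h)))))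

theorem BCD_at (f : M) (w : List Bool) : oB f w + oC f w + oD f w = 0 := by
  have h := congrFun (BCD_sum f) w
  simpa using h

theorem CABCD_at (f : M) (w : List Bool) :
    oC (oA (oB f)) w + oC (oA (oC f)) w + oC (oA (oD f)) w = 0 := by
  have h := congrFun (congrArg (fun x => oC (oA x)) (BCD_sum f)) w
  simpa using h

/-- First step. -/
theorem stepU (g : M) :
    opU (pr (oC g + oA (oC g) + oD (oA (oC g)) + oA (oD (oA (oC g)))) g) = pr 0 (opS g) := by
  simp only [opU, opS, A_pr, C_pr, D_pr, pr_add, map_add, A_A, D_D, B_C, D_C, B_D, D_A_D,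
    add_zero, zero_add]
  congr 1
  · funext w
    simp only [Pi.add_apply, Pi.zero_apply]
    linear_combination (norm := (ring_nf; reduce_mod_char)) BCD_at g w
  · funext w
    simp only [Pi.add_apply]
    linear_combination (norm := (ring_nf; reduce_mod_char))

/-- Second step. -/
theorem stepS (h : M) :
    opS (pr h (oA h + oB (oA h) + oA (oB (oA h)) + oD (oA h) + oD (oA (oB (oA h)))
      + oA (oD (oA h)) + oA (oD (oA (oB (oA h)))))) = pr 0 (opT h) := by
  simp only [opS, opT, A_pr, B_pr, C_pr, D_pr, pr_add, map_add, A_A, B_B, D_D, B_D,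
    D_A_D, C_B, C_D, D_B, add_zero, zero_add]
  congr 1
  · funext w
    simp only [Pi.add_apply, Pi.zero_apply]
    linear_combination (norm := (ring_nf; reduce_mod_char))
  · funext w
    simp only [Pi.add_apply]
    have h1 := BCD_at (oA h) w
    have h2 := BCD_at (oA (oB (oA h))) w
    have h3 := CABCD_at (oA h) w
    have h4 := BCD_at (oA (oD (oA h))) w
    have h5 := BCD_at (oA (oD (oA (oB (oA h))))) w
    rw [D_A_D, Pi.zero_apply] at h4 h5
    linear_combination (norm := (ring_nf; reduce_mod_char)) h1 + h2 + h3 + h4 + h5

/-- Third step. -/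
theorem stepT (k : M) :
    opT (pr (k + (oA k + oA (oD k) + oA (oB (oA k)))) (oA k + oA (oD k) + oA (oB (oA k))))
      = pr 0 (k + (oA k + oA (oD k) + oA (oB (oA k))) + (oC k + oD (oA k))) := by
  simp only [opT, A_pr, B_pr, C_pr, D_pr, pr_add, map_add, A_A, D_D, D_A_D, D_B, B_C, add_zero,
    zero_add]
  congr 1
  · funext w
    simp only [Pi.add_apply, Pi.zero_apply]
    linear_combination (norm := (ring_nf; reduce_mod_char))
  · funext w
    simp only [Pi.add_apply]
    linear_combination (norm := (ring_nf; reduce_mod_char))

/-- The cycle closes up: the third reduction of `u` is `u a`. -/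
theorem cycle (k : M) :
    opU (k + oA k) = k + (oA k + oA (oD k) + oA (oB (oA k))) + (oC k + oD (oA k)) := by
  simp only [opU, map_add, A_A, add_zero]
  funext w
  have h := congrFun (congrArg (fun x => oA x) (BCD_sum (oA k))) w
  simp only [map_add, map_zero, Pi.add_apply, Pi.zero_apply] at h
  simp only [Pi.add_apply]
  linear_combination (norm := (ring_nf; reduce_mod_char)) h

theorem add_A_twice (F : M) : (F + oA F) + oA (F + oA F) = F := by
  rw [map_add, A_A, add_zero, add_assoc, addM_self, add_zero]

/-- From a solution of `u F = t` we obtain a solution of `u F' = pr 0 (pr 0 (pr 0 t))`, related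
to `F` by `F'(100x) + F'(101x) = F(a x)`. -/
theorem lift_solution (F : M) :
    ∃ F' : M, opU F' = pr 0 (pr 0 (pr 0 (opU F))) ∧
      ∀ x, F' (true :: false :: false :: x) + F' (true :: false :: true :: x) = F (actA x) := by
  set k : M := F + oA F with hk
  set P : M := oA k + oA (oD k) + oA (oB (oA k)) with hP
  set h : M := pr (k + P) P with hh
  set g : M := pr h (oA h + oB (oA h) + oA (oB (oA h)) + oD (oA h) + oD (oA (oB (oA h)))
      + oA (oD (oA h)) + oA (oD (oA (oB (oA h))))) with hg
  refine ⟨pr (oC g + oA (oC g) + oD (oA (oC g)) + oA (oD (oA (oC g)))) g, ?_, ?_⟩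
  · rw [stepU, hg, stepS, hh, hP, stepT, ← cycle k, hk, add_A_twice]
  · intro x
    have e1 : pr (oC g + oA (oC g) + oD (oA (oC g)) + oA (oD (oA (oC g)))) g
        (true :: false :: false :: x) = k x + P x := rfl
    have e2 : pr (oC g + oA (oC g) + oD (oA (oC g)) + oA (oD (oA (oC g)))) g
        (true :: false :: true :: x) = P x := rfl
    rw [e1, e2, hk]
    simp only [Pi.add_apply, oA_apply]
    linear_combination (norm := (ring_nf; reduce_mod_char))

/-- The indicator function of a single word. -/
def ind (z : List Bool) : M := fun w => if w = z then 1 else 0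

theorem ind_true (z : List Bool) : ind (true :: z) = pr 0 (ind z) := by
  funext w
  match w with
  | [] => simp [ind, pr]
  | false :: w => simp [ind, pr]
  | true :: w => simp [ind, pr]

theorem ind_false (z : List Bool) : ind (false :: z) = pr (ind z) 0 := by
  funext w
  match w with
  | [] => simp [ind, pr]
  | false :: w => simp [ind, pr]
  | true :: w => simp [ind, pr]

theorem res_ind_nil (x : Bool) : res x (ind []) = 0 := by
  funext w
  simp [res, ind]

theorem A_ind_nil : oA (ind []) = 0 := by rw [oA_eq]; simp [res_ind_nil, pr_zero]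
theorem B_ind_nil : oB (ind []) = 0 := by rw [oB_eq]; simp [res_ind_nil, pr_zero]
theorem C_ind_nil : oC (ind []) = 0 := by rw [oC_eq]; simp [res_ind_nil, pr_zero]
theorem D_ind_nil : oD (ind []) = 0 := by rw [oD_eq]; simp [res_ind_nil, pr_zero]

theorem base_solution : opU (ind [true, false]) = ind [true, true] := by
  rw [ind_true, ind_false, ind_true, ind_true]
  simp only [opU, A_pr, B_pr, C_pr, D_pr, pr_add, A_ind_nil, add_zero, zero_add, map_zero,
    pr_zero, addM_self]

theorem ind_replicate (n : ℕ) :
    ind (List.replicate (n + 3) true) = pr 0 (pr 0 (pr 0 (ind (List.replicate n true)))) := by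
  rw [show List.replicate (n + 3) true = true :: true :: true :: List.replicate n true from rfl,
    ind_true, ind_true, ind_true]

/-- For every `m` there is a solution of `u F = δ_{1^n}`, `n = 3m+2`, whose support contains a
word with last letter `0`. -/
theorem solutions (m : ℕ) :
    ∃ (F : M) (x : Bool) (z : List Bool), opU F = ind (List.replicate (3 * m + 2) true) ∧
      F (x :: z ++ [false]) ≠ 0 ∧ (x :: z ++ [false]).length = 3 * m + 2 := by
  induction m with
  | zero =>
    refine ⟨ind [true, false], true, [], base_solution, ?_, rfl⟩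
    simp [ind]
  | succ m ih =>
    obtain ⟨F, x, z, hF, hy, hl⟩ := ih
    obtain ⟨F', hF', hx⟩ := lift_solution F
    have hu : opU F' = ind (List.replicate (3 * (m + 1) + 2) true) := by
      rw [hF', hF, show 3 * (m + 1) + 2 = (3 * m + 2) + 3 by ring, ind_replicate]
    have h := hx ((!x) :: z ++ [false])
    have hne : F (actA ((!x) :: z ++ [false])) ≠ 0 := by
      have : actA ((!x) :: z ++ [false]) = x :: z ++ [false] := by simp [actA]
      rw [this]; exact hy
    rw [← h] at hne
    have hor : F' (true :: false :: false :: ((!x) :: z ++ [false])) ≠ 0 ∨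
        F' (true :: false :: true :: ((!x) :: z ++ [false])) ≠ 0 := by
      by_contra hcon
      push Not at hcon
      rw [hcon.1, hcon.2] at hne
      exact hne (by simp)
    rcases hor with h1 | h1
    · refine ⟨F', true, false :: false :: (!x) :: z, hu, h1, ?_⟩
      simp only [List.length_cons, List.length_append, List.length_nil] at hl ⊢
      omega
    · refine ⟨F', true, false :: true :: (!x) :: z, hu, h1, ?_⟩
      simp only [List.length_cons, List.length_append, List.length_nil] at hl ⊢
      omega

/-! ### Words all of whose far letters are `1` -/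

/-- All letters of `w` at positions `≥ m` are `1`. -/
def Tail (m : ℕ) (w : List Bool) : Prop := ∀ x ∈ w.drop m, x = true

theorem tail_cons_succ (m : ℕ) (x : Bool) (w : List Bool) : Tail (m + 1) (x :: w) ↔ Tail m w :=
  Iff.rfl

theorem tail_mono {m n : ℕ} (hmn : m ≤ n) {w : List Bool} (h : Tail m w) : Tail n w := by
  intro x hx
  obtain ⟨k, rfl⟩ := Nat.exists_eq_add_of_le hmn
  apply h
  rw [← List.drop_drop] at hx
  exact List.mem_of_mem_drop hx

theorem tail_A {m : ℕ} {w : List Bool} (h : Tail m w) : Tail (m + 1) (actA w) := by
  cases w with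
  | nil => intro x hx; simp [actA] at hx
  | cons x w =>
    rw [actA, tail_cons_succ]
    cases m with
    | zero => intro y hy; exact h y (List.mem_cons_of_mem _ (by simpa using hy))
    | succ m => exact tail_mono (Nat.le_succ m) h

theorem tail_BCD (w : List Bool) : (Tail 0 w → Tail 0 (actB w) ∧ Tail 0 (actC w) ∧ Tail 0 (actD w))
    ∧ ∀ m, Tail m w → Tail (m + 1) (actB w) ∧ Tail (m + 1) (actC w) ∧ Tail (m + 1) (actD w) := by
  induction w with
  | nil =>
    constructor
    · intro _
      refine ⟨?_, ?_, ?_⟩ <;> · intro x hx; simp [actB, actC, actD] at hx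
    · intro m _
      refine ⟨?_, ?_, ?_⟩ <;> · intro x hx; simp [actB, actC, actD] at hx
  | cons x w ih =>
    obtain ⟨ih0, ih⟩ := ih
    have key0 : Tail 0 (x :: w) → Tail 0 (actB (x :: w)) ∧ Tail 0 (actC (x :: w)) ∧
        Tail 0 (actD (x :: w)) := by
      intro h
      have hx : x = true := h x (by simp)
      subst hx
      have hw : Tail 0 w := fun y hy => h y (List.mem_cons_of_mem _ (by simpa using hy))
      obtain ⟨h1, h2, h3⟩ := ih0 hw
      have aux : ∀ v : List Bool, Tail 0 v → Tail 0 (true :: v) := by
        intro v hv y hy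
        rw [List.drop_zero] at hy
        rcases List.mem_cons.1 hy with h | h
        · exact h
        · exact hv y (by simpa using h)
      exact ⟨aux _ h2, aux _ h3, aux _ h1⟩
    refine ⟨key0, ?_⟩
    intro m h
    cases m with
    | zero =>
      obtain ⟨h1, h2, h3⟩ := key0 h
      exact ⟨tail_mono (Nat.zero_le _) h1, tail_mono (Nat.zero_le _) h2,
        tail_mono (Nat.zero_le _) h3⟩
    | succ m =>
      rw [tail_cons_succ] at h
      cases x
      · simp only [actB, actC, actD, tail_cons_succ]
        exact ⟨tail_A h, tail_A h, tail_mono (Nat.le_succ m) h⟩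
      · simp only [actB, actC, actD, tail_cons_succ]
        obtain ⟨h1, h2, h3⟩ := ih m h
        exact ⟨h2, h3, h1⟩

theorem tail_group (g : Equiv.Perm (List Bool)) (hg : g ∈ Grigorchuk) :
    ∃ K : ℕ, ∀ (m : ℕ) (w : List Bool), Tail m w → Tail (m + K) (g w) := by
  have gens : ∀ x ∈ ({genA, genB, genC, genD} : Set (Equiv.Perm (List Bool))),
      ∀ (m : ℕ) (w : List Bool), Tail m w → Tail (m + 1) (x w) ∧ Tail (m + 1) (x⁻¹ w) := by
    intro x hx m w h
    rcases hx with rfl | rfl | rfl | rfl
    · exact ⟨tail_A h, tail_A h⟩
    · exact ⟨((tail_BCD w).2 m h).1, ((tail_BCD w).2 m h).1⟩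
    · exact ⟨((tail_BCD w).2 m h).2.1, ((tail_BCD w).2 m h).2.1⟩
    · exact ⟨((tail_BCD w).2 m h).2.2, ((tail_BCD w).2 m h).2.2⟩
  unfold Grigorchuk at hg
  induction hg using Subgroup.closure_induction'' with
  | mem x hx => exact ⟨1, fun m w h => (gens x hx m w h).1⟩
  | inv_mem x hx => exact ⟨1, fun m w h => (gens x hx m w h).2⟩
  | one => exact ⟨0, fun m w h => h⟩
  | mul x y _ _ hx hy =>
    obtain ⟨K, hK⟩ := hx
    obtain ⟨L, hL⟩ := hy
    refine ⟨L + K, fun m w h => ?_⟩
    have := hK (m + L) (y w) (hL m w h)
    rw [← add_assoc]
    exact this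

/-! ### The representation of the group algebra on functions -/

/-- The representation of the group on `F₂`-valued functions, `(g f)(w) = f(g⁻¹ w)`. -/
noncomputable def rho : Grigorchuk →* Module.End (ZMod 2) M where
  toFun g := LinearMap.funLeft (ZMod 2) (ZMod 2) (fun w => (g⁻¹ : Equiv.Perm (List Bool)) w)
  map_one' := by
    ext f w
    simp [LinearMap.funLeft_apply]
  map_mul' g h := by
    ext f w
    simp [LinearMap.funLeft_apply, Module.End.mul_apply]

theorem rho_apply (g : Grigorchuk) (f : M) (w : List Bool) :
    rho g f w = f ((g⁻¹ : Equiv.Perm (List Bool)) w) := rfl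

/-- The representation of the group algebra on `F₂`-valued functions. -/
noncomputable def Phi : MonoidAlgebra (ZMod 2) Grigorchuk →ₐ[ZMod 2] Module.End (ZMod 2) M :=
  MonoidAlgebra.lift (ZMod 2) (Module.End (ZMod 2) M) Grigorchuk rho

/-- The generator `a` as an element of the group. -/
def ga : Grigorchuk := ⟨genA, Subgroup.subset_closure (by simp)⟩
/-- The generator `c` as an element of the group. -/
def gc : Grigorchuk := ⟨genC, Subgroup.subset_closure (by simp)⟩
/-- The generator `d` as an element of the group. -/
def gd : Grigorchuk := ⟨genD, Subgroup.subset_closure (by simp)⟩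

/-- The element `u = 1 + c + ac + aca + dad` of the group algebra. -/
noncomputable def elU : MonoidAlgebra (ZMod 2) Grigorchuk :=
  MonoidAlgebra.single 1 1 + MonoidAlgebra.single gc 1 + MonoidAlgebra.single (ga * gc) 1
    + MonoidAlgebra.single (ga * gc * ga) 1 + MonoidAlgebra.single (gd * ga * gd) 1

theorem rho_ga (f : M) (w : List Bool) : rho ga f w = f (actA w) := rfl
theorem rho_gc (f : M) (w : List Bool) : rho gc f w = f (actC w) := rfl
theorem rho_gd (f : M) (w : List Bool) : rho gd f w = f (actD w) := rfl

theorem Phi_elU (f : M) : Phi elU f = opU f := by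
  funext w
  have h := congrFun (D_A_D f) w
  simp only [Phi, elU, map_add, MonoidAlgebra.lift_single, one_smul, map_mul, map_one,
    LinearMap.add_apply, Module.End.mul_apply, Module.End.one_apply, Pi.add_apply, rho_ga, rho_gc,
    rho_gd]
  simp only [oD_apply, oA_apply, Pi.zero_apply, actD_invol w] at h
  simp only [opU, Pi.add_apply, oA_apply, oC_apply, oD_apply, actA_invol w]
  linear_combination (norm := (ring_nf; reduce_mod_char)) h

theorem Phi_apply (v : MonoidAlgebra (ZMod 2) Grigorchuk) (f : M) (w : List Bool) :
    Phi v f w = v.coeff.sum fun g r => r * f ((g⁻¹ : Equiv.Perm (List Bool)) w) := by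
  rw [Phi, MonoidAlgebra.lift_apply, Finsupp.sum, Finsupp.sum, LinearMap.sum_apply,
    Finset.sum_apply]
  rfl

/-- `u` has no left inverse in the group algebra. -/
theorem no_left_inverse (v : MonoidAlgebra (ZMod 2) Grigorchuk) : v * elU ≠ 1 := by
  intro hv
  choose! K hK using tail_group
  let N := v.coeff.support.sup (fun g => K g)
  obtain ⟨F, x, z, hF, hy, hl⟩ := solutions N
  set y := x :: z ++ [false] with hydef
  have h1 : Phi v (opU F) = F := by
    rw [← Phi_elU, ← Module.End.mul_apply, ← map_mul, hv, map_one, Module.End.one_apply]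
  have h2 : Phi v (opU F) y ≠ 0 := by rw [h1]; exact hy
  rw [Phi_apply, hF, Finsupp.sum] at h2
  obtain ⟨g, hg, hgne⟩ := Finset.exists_ne_zero_of_sum_ne_zero h2
  have h3 : ind (List.replicate (3 * N + 2) true) ((g⁻¹ : Equiv.Perm (List Bool)) y) ≠ 0 := by
    intro h; rw [h, mul_zero] at hgne; exact hgne rfl
  have h4 : (g⁻¹ : Equiv.Perm (List Bool)) y = List.replicate (3 * N + 2) true := by
    by_contra hne
    exact h3 (by simp only [ind, if_neg hne])
  have h5 : y = (g : Equiv.Perm (List Bool)) (List.replicate (3 * N + 2) true) := by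
    rw [← h4]; simp
  have h6 : Tail 0 (List.replicate (3 * N + 2) true) := by
    intro t ht
    rw [List.drop_zero] at ht
    exact List.eq_of_mem_replicate ht
  have h7 := hK g g.2 0 _ h6
  rw [← h5, zero_add] at h7
  have hgN : K g ≤ N := Finset.le_sup (f := fun g : Grigorchuk => K g) hg
  have h8 : Tail N y := tail_mono hgN h7
  have h9 : false ∈ y.drop N := by
    rw [hydef, List.drop_append_of_le_length]
    · simp
    · rw [hydef, List.length_append] at hl
      simp only [List.length_cons, List.length_nil] at hl ⊢
      omega
  exact absurd (h8 false h9) (by decide)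

/-- **Main result.** For the first Grigorchuk group `G` the Jacobson radical of `F₂[G]` (the
intersection of the maximal left ideals) is different from the augmentation ideal. -/
theorem result :
    Ring.jacobson (MonoidAlgebra (ZMod 2) Grigorchuk) ≠ augmentationIdeal := by
  intro h
  have hmem : elU - 1 ∈ Ring.jacobson (MonoidAlgebra (ZMod 2) Grigorchuk) := by
    rw [h, augmentationIdeal, RingHom.mem_ker]
    simp only [augmentation, elU, map_sub, map_add, MonoidAlgebra.lift_single, map_one,
      MonoidHom.one_apply, smul_eq_mul, mul_one]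
    decide
  rw [← Ideal.jacobson_bot] at hmem
  obtain ⟨s, hs⟩ := Ideal.exists_mul_sub_mem_of_sub_one_mem_jacobson _ hmem
  exact no_left_inverse s (sub_eq_zero.1 (by simpa using hs))

end Pool.Agent.Results.MP_2e8808_al.JacobsonRadical
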